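import Pool.Agent.H825R2.CD.Top
import Pool.Agent.Results.MP_990a44_co.SqrtFactor

namespace Pool.Agent.Results.MP_990a44_co.ExactValue

open Pool.Agent.Results.MP_990a44_co.SqrtFactor

/-- Every pair of sets of words of length `n` over an alphabet of `q ≥ 12` letters such that all
distances between a word of the first and a word of the second are equal to `δ` has product of
cardinalities at most `F_q(n, δ)`. -/
theorem upper_bound (q n δ : ℕ) (hq : 12 ≤ q) (A B : Finset (Fin n → Fin q))
    (h : ConstDist δ A B) : A.card * B.card ≤ F q n δ := by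
  obtain ⟨Q, rfl⟩ : ∃ Q, q = Q + 1 := ⟨q - 1, by omega⟩
  have h1 := H825CD.all_main (Fin n) Q (by omega) n Finset.univ (by simp) δ A B
    (fun a _ i hi => absurd (Finset.mem_univ i) hi) (fun a _ i hi => absurd (Finset.mem_univ i) hi)
    h
  have h2 : F (Q + 1) n δ = H825CD.FF Q n δ := by
    unfold F H825CD.FF
    rw [if_neg (by omega), if_neg (by omega)]
    rfl
  rw [h2]; exact h1

/-- `M_q(n, δ) = F_q(n, δ)` for all `q ≥ 12`. -/
theorem result (q n δ : ℕ) (hq : 12 ≤ q) (hδ : δ ≤ n) : M q n δ = F q n δ := by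
  refine le_antisymm ?_ (lower (by omega) n δ hδ)
  obtain ⟨A, B, hc, hk⟩ := M_ach q n δ
  rw [hk]
  exact upper_bound q n δ hq A B hc

end Pool.Agent.Results.MP_990a44_co.ExactValue
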